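import Pool.Agent.Y148.BB.Corr

/-!
# Motives as twisted direct summands
-/

open CategoryTheory AlgebraicGeometry

universe u v w

namespace Pool.Agent.Y148.RV

open Pool.Agent.H914 Pool.Agent.H914.VarClass Pool.Agent.H914.VarClass.Obj Pool.Agent.W492.BB
  Pool.Agent.W550.Corr Pool.Agent.TH133 Pool.Agent.Y148.BB

set_option linter.unusedSectionVars false
set_option linter.unusedVariables false

variable {k : Type u} [Field k] {𝒱 : VarClass k}

section chow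

variable {C : TheoryData.{u, v, 0} 𝒱 ℚ} [hC : IsChowProj C] {X Y Z W P L M V N R : 𝒱.Obj}

include hC

lemma comp_wg (b : N ⟶ Y) (v : C.A N) (Γ : C.A (V.prod N)) :
    C.comp Γ (wg C b v) = C.push (prodMap (𝟙 V) b) (C.pull (snd V N) v * Γ) := by
  have e1 : prodMap (𝟙 V) (Obj.lift (𝟙 N) b) ≫ u12 V N Y = 𝟙 _ := by
    apply prod_ext <;> simp [u12]
  have e2 : prodMap (𝟙 V) (Obj.lift (𝟙 N) b) ≫ u13 V N Y = prodMap (𝟙 V) b := by
    apply prod_ext <;> simp [u13]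
  rw [comp_eq_extR, TheoryData.extR, wg, C.base_snd, ← C.proj_right, ← C.push_comp,
    ← C.pull_comp, e1, e2, C.pull_id]

lemma tp_wg (b : N ⟶ Y) (u : C.A N) : tp C (wg C b u) = C.push (Obj.lift b (𝟙 N)) u := by
  have e1 : Obj.lift (𝟙 N) b ≫ sw N Y = Obj.lift b (𝟙 N) := by
    apply prod_ext <;> simp [sw, comp_lift]
  rw [tp_eq_push, wg, ← C.push_comp, e1]

lemma tp_wg_comp_wg (b : N ⟶ Y) (u v : C.A N) :
    C.comp (tp C (wg C b u)) (wg C b v) = C.push (Obj.lift b b) (v * u) := by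
  have e1 : Obj.lift b (𝟙 N) ≫ snd Y N = 𝟙 N := lift_snd _ _
  have e2 : Obj.lift b (𝟙 N) ≫ prodMap (𝟙 Y) b = Obj.lift b b := by
    apply prod_ext <;> simp
  rw [comp_wg, tp_wg, ← C.proj_left, ← C.push_comp, ← C.pull_comp, e1, e2, C.pull_id]

lemma push_lift_self (b : N ⟶ Y) (x : C.A N) (hx : C.push b x = 1) :
    C.push (Obj.lift b b) x = dg C Y := by
  have e1 : Obj.lift b b = b ≫ Obj.lift (𝟙 Y) (𝟙 Y) := by
    rw [comp_lift, Category.comp_id]
  rw [e1, C.push_comp, hx, dg]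
  rfl

variable (C) in
/-- The twist `h(X)(-c)` is a direct summand of `h(R)`. -/
def Emb (R X : 𝒱.Obj) (c : ℤ) : Prop :=
  ∃ e ∈ C.gr (X.prod R) (X.dim + c), ∃ r ∈ C.gr (R.prod X) (R.dim - c), C.comp e r = dg C X

lemma Emb.trans {c c' : ℤ} (h : Emb C R P c) (h' : Emb C P X c') : Emb C R X (c + c') := by
  obtain ⟨e, he, r, hr, her⟩ := h
  obtain ⟨e', he', r', hr', her'⟩ := h'
  refine ⟨C.comp e' e, ?_, C.comp r r', ?_, ?_⟩
  · exact gr_congr (by ring) (comp_mem C he' he)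
  · have h1 : r ∈ C.gr (R.prod P) (R.dim + (-c)) := gr_congr (by ring) hr
    have h2 : r' ∈ C.gr (P.prod X) (P.dim + (-c')) := gr_congr (by ring) hr'
    exact gr_congr (by ring) (comp_mem C h1 h2)
  · rw [comp_assoc C, ← comp_assoc C e, her, dg_comp, her']

lemma emb_fst (P L : 𝒱.Obj) (u v : C.A L) {c : ℤ} (hu : u ∈ C.gr L c)
    (hv : v ∈ C.gr L (L.dim - c)) (huv : HasDegree C (v * u) 1) : Emb C (P.prod L) P c := by
  refine ⟨tp C (wg C (fst P L) (C.pull (snd P L) u)), ?_,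
    wg C (fst P L) (C.pull (snd P L) v), ?_, ?_⟩
  · exact gr_congr (by ring) (tp_mem C (wg_mem (fst P L) (C.pull_mem (snd P L) hu)))
  · exact gr_congr (by rw [dim_prod]; push_cast; ring)
      (wg_mem (fst P L) (C.pull_mem (snd P L) hv))
  · rw [tp_wg_comp_wg]
    apply push_lift_self
    rw [← map_mul, (huv P).2, one_smul]

lemma emb_snd (P L : 𝒱.Obj) (o : C.A P) (ho : o ∈ C.gr P P.dim) (hd : HasDegree C o 1) :
    Emb C (P.prod L) L 0 := by
  refine ⟨tp C (wg C (snd P L) 1), ?_, wg C (snd P L) (C.pull (fst P L) o), ?_, ?_⟩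
  · exact gr_congr (by ring) (tp_mem C (wg_mem (snd P L) (C.one_mem _)))
  · exact gr_congr (by rw [dim_prod]; push_cast; ring)
      (wg_mem (snd P L) (C.pull_mem (fst P L) ho))
  · rw [tp_wg_comp_wg]
    apply push_lift_self
    rw [mul_one, (hd L).1, one_smul]

lemma exists_hasDegree_one (X : 𝒱.Obj) : ∃ o ∈ C.gr X X.dim, HasDegree C o 1 := by
  obtain ⟨o, ho, h1, h2⟩ := W492.BB.exists_deg_one C X
  refine ⟨o, ho, fun Y => ?_⟩
  rw [one_smul]
  exact ⟨h2 Y, h1 Y⟩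

end chow

section weil

variable {C : TheoryData.{u, v, 0} 𝒱 ℚ} [hC : IsChowProj C] {K : Type w} [Field K]
  (H : WeilTheoryData.{u, v, w} C K) [hH : IsWeilProj H] {X Y Z W P L M V N R : 𝒱.Obj}

include hC hH

lemma one_ne (X : 𝒱.Obj) : (1 : C.A X) ≠ 0 := by
  intro h
  apply hH.one_ne_zero X
  rw [← map_one H.cl, h, map_zero]

lemma dg_ne (X : 𝒱.Obj) : dg C X ≠ 0 := by
  intro h
  apply one_ne H X
  have h1 : C.act (dg C X) 1 = 1 := act_dg C 1
  rw [← h1, h, TheoryData.act_zero]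

lemma emb_prod (P L : 𝒱.Obj) {c : ℕ} (hc : c ≤ L.dim) : Emb C (P.prod L) P c := by
  obtain ⟨u, hu, v, hv, huv⟩ := exists_dual_pair (C := C) (H := H) L hc
  have h1 : v * u ∈ C.gr L L.dim := gr_congr (by ring) (C.mul_mem hv hu)
  obtain ⟨q, hq⟩ := exists_hasDegree h1
  have h2 : q = 1 := by
    have h3 := (hq L).1
    rw [huv] at h3
    by_contra hne
    have h4 : (q - 1) • (1 : C.A L) = 0 := by rw [sub_smul, one_smul, ← h3, sub_self]
    apply one_ne H L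
    rw [← one_smul ℚ (1 : C.A L), ← inv_mul_cancel₀ (sub_ne_zero.2 hne), mul_smul, h4, smul_zero]
  rw [h2] at hq
  exact emb_fst P L u v hu hv hq

/-- `h(P)(-c)` is a direct summand of `h(R)` for `1 ≤ c ≤ m + 1`. -/
def Good (C : TheoryData.{u, v, 0} 𝒱 ℚ) (P : 𝒱.Obj) (m : ℕ) (R : 𝒱.Obj) : Prop :=
  ∀ c : ℕ, 1 ≤ c → c ≤ m + 1 → Emb C R P c

lemma Good.left {m : ℕ} (h : Good C (P.prod X) m R) : Good C P m R := by
  intro c h1 h2
  have h3 := (h c h1 h2).trans (emb_prod H P X (Nat.zero_le _))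
  rwa [Nat.cast_zero, add_zero] at h3

lemma Good.right {m : ℕ} (h : Good C (P.prod X) m R) : Good C X m R := by
  intro c h1 h2
  obtain ⟨o, ho, hd⟩ := exists_hasDegree_one (C := C) P
  have h3 := (h c h1 h2).trans (emb_snd P X o ho hd)
  rwa [add_zero] at h3

lemma exists_good {Rat : 𝒱.Obj → Prop} (h : ∀ X : 𝒱.Obj, ∃ R, Rat R ∧ Emb C R X 1) (P : 𝒱.Obj)
    (m : ℕ) : ∃ R, Rat R ∧ Good C P m R := by
  obtain ⟨T, -, e, he, r, hr, her⟩ := h P
  have hT : 1 ≤ T.dim := by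
    by_contra hT
    have h0 : T.dim = 0 := by omega
    have h1 : e = 0 := hC.gr_top (P.prod T) (P.dim + 1) e he (by
      rw [dim_prod, h0]; push_cast; omega)
    apply dg_ne H P
    rw [← her, h1, zero_comp]
  have hL : ∀ m : ℕ, ∃ L : 𝒱.Obj, m ≤ L.dim := by
    intro m
    induction m with
    | zero => exact ⟨P, Nat.zero_le _⟩
    | succ m ih =>
      obtain ⟨L, hL⟩ := ih
      refine ⟨L.prod T, ?_⟩
      rw [dim_prod]
      omega
  obtain ⟨L, hL⟩ := hL m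
  obtain ⟨R, hR, hR'⟩ := h (P.prod L)
  refine ⟨R, hR, fun c h1 h2 => ?_⟩
  have h3 := hR'.trans (emb_prod H P L (c := c - 1) (by omega))
  have e1 : (1 : ℤ) + ((c - 1 : ℕ) : ℤ) = c := by omega
  rwa [e1] at h3

end weil

end Pool.Agent.Y148.RV
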