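import Pool.Agent.Y148.RV.Emb
import Pool.Agent.Y148.BS.LangRat
import Pool.Agent.Y148.BS.Translate

/-!
# The smallest filtration, and chains of self-correspondences
-/

open CategoryTheory AlgebraicGeometry

universe u v w

namespace Pool.Agent.Y148.RV

open Pool.Agent.H914 Pool.Agent.H914.VarClass Pool.Agent.H914.VarClass.Obj Pool.Agent.W492.BB
  Pool.Agent.W550.Corr Pool.Agent.TH133 Pool.Agent.Y148.BB Pool.Agent.Y148

set_option linter.unusedSectionVars false
set_option linter.unusedVariables false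

variable {k : Type u} [Field k] {𝒱 : VarClass k}

section weil

variable {C : TheoryData.{u, v, 0} 𝒱 ℚ} {K : Type w} [Field K]
  (H : WeilTheoryData.{u, v, w} C K) (D : ℕ → Prop) (N : ∀ X : 𝒱.Obj, ℕ → Submodule ℚ (C.A X))

/-- The classes obtained from the kernels `N` by successive correspondences, the correspondence
applied at the step `ν` to a class in `CH^j(X)` acting as zero on `H^(2j - ν)(X)`; all the
codimensions are in `D`. -/
inductive Ch : ℕ → (X : 𝒱.Obj) → ℕ → C.A X → Prop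
  | start (X : 𝒱.Obj) (j : ℕ) (z : C.A X) (hj : D j) (hz : z ∈ N X j) : Ch 2 X j z
  | step (ν : ℕ) (X Y : 𝒱.Obj) (j i : ℕ) (z : C.A X) (Γ : C.A (X.prod Y)) (h : Ch ν X j z)
      (hi : D i) (hΓ : C.Deg (X.dim + i - j) Γ) (hk : Kills H Γ (2 * j - ν)) :
      Ch (ν + 1) Y i (C.act Γ z)

variable {H} {D} {N} [hC : IsChowProj C] [hH : IsWeilProj H] {X Y Z W P L M V R : 𝒱.Obj}

lemma Ch.two_le {ν j : ℕ} {z : C.A X} (h : Ch H D N ν X j z) : 2 ≤ ν := by
  induction h with
  | start X j z hz => exact le_rfl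
  | step ν X Y j i z Γ h hΓ hk ih => omega

lemma Ch.mem_D {ν j : ℕ} {z : C.A X} (h : Ch H D N ν X j z) : D j := by
  induction h with
  | start X j z hj hz => exact hj
  | step ν X Y j i z Γ h hi hΓ hk ih => exact hi

include hC in
lemma act_gr {j i : ℕ} {Γ : C.A (X.prod Y)} (hΓ : C.Deg (X.dim + i - j) Γ) {z : C.A X}
    (hz : z ∈ C.gr X j) : C.act Γ z ∈ C.gr Y i := by
  have h4 : Γ ∈ C.gr (X.prod Y) (X.dim + ((i : ℤ) - j)) := gr_congr (by ring) hΓ
  exact gr_congr (by ring) (act_mem' C h4 hz)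

variable (H) (D) (N) in
/-- The smallest filtration. -/
def minF (X : 𝒱.Obj) (j : ℕ) : ℕ → Submodule ℚ (C.A X)
  | 0 => C.gr X j
  | 1 => { carrier := {z | z ∈ C.gr X j ∧ H.cl z = 0}
           add_mem' := fun {a b} ha hb => ⟨Submodule.add_mem _ ha.1 hb.1, by
            rw [map_add, ha.2, hb.2, add_zero]⟩
           zero_mem' := ⟨Submodule.zero_mem _, map_zero _⟩
           smul_mem' := fun q a ha => ⟨Submodule.smul_mem _ q ha.1, by
            rw [Algebra.smul_def, map_mul, ha.2, mul_zero]⟩ }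
  | (ν + 2) => Submodule.span ℚ {z | Ch H D N (ν + 2) X j z}

include hC hH

lemma Ch.mem (hN : BB.IsAbelJacobiKernel H N) {ν j : ℕ} {z : C.A X} (h : Ch H D N ν X j z) :
    z ∈ C.gr X j ∧ H.cl z = 0 := by
  induction h with
  | start X j z _ hz => exact hN.deg X j z hz
  | step ν X Y j i z Γ h _ hΓ hk ih => exact ⟨act_gr hΓ ih.1, act_hom ih.2⟩

lemma Ch.act (hN : BB.IsAbelJacobiKernel H N) {ν j i : ℕ} {z : C.A X} (h : Ch H D N ν X j z)
    (hi : D i) (Γ : C.A (X.prod Y)) (hΓ : C.Deg (X.dim + i - j) Γ) :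
    Ch H D N ν Y i (C.act Γ z) := by
  cases h with
  | start _ _ _ _ hz => exact Ch.start Y i _ hi (hN.stable X Y j i Γ hΓ z hz)
  | step ν Z _ l _ z Γ' h _ hΓ' hk =>
    rw [← C.act_comp]
    apply Ch.step ν Z Y l i z _ h hi
    · have h4 : Γ ∈ C.gr (X.prod Y) (X.dim + ((i : ℤ) - j)) := gr_congr (by ring) hΓ
      have h5 : Γ' ∈ C.gr (Z.prod X) (Z.dim + ((j : ℤ) - l)) := gr_congr (by ring) hΓ'
      exact gr_congr (by ring) (comp_mem C h5 h4)
    · intro a ha
      rw [actH_comp H, hk a ha, TheoryData.act_map_zero]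

lemma Ch.weaken (hN : BB.IsAbelJacobiKernel H N) {ν j : ℕ} (hν : 2 ≤ ν) {z : C.A X}
    (h : Ch H D N (ν + 1) X j z) : Ch H D N ν X j z := by
  generalize hμ : ν + 1 = μ at h
  cases h with
  | start _ _ _ _ hz => omega
  | step ν' Z _ l _ z Γ' h hi hΓ' hk =>
    obtain rfl : ν = ν' := by omega
    exact h.act hN hi Γ' hΓ'

lemma minF_two (X : 𝒱.Obj) {j : ℕ} (hj : D j) : minF H D N X j 2 = N X j := by
  change Submodule.span ℚ {z | Ch H D N 2 X j z} = N X j
  have h1 : {z | Ch H D N 2 X j z} = (N X j : Set (C.A X)) := by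
    ext z
    constructor
    · intro h
      change Ch H D N 2 X j z at h
      generalize hμ : 2 = μ at h
      cases h with
      | start _ _ _ _ hz => exact hz
      | step ν' Z _ l _ z Γ' h _ hΓ' hk =>
        have := h.two_le
        omega
    · intro h
      exact Ch.start X j z hj h
  rw [h1, Submodule.span_eq]

lemma hom_zero {z : C.A X} (hz : z ∈ C.gr X 0) (h : H.cl z = 0) : z = 0 := by
  obtain ⟨q, rfl⟩ := hC.gr_zero X z hz
  by_cases hq : q = 0
  · rw [hq, zero_smul]
  · exfalso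
    apply hH.one_ne_zero X
    have h1 : (1 : C.A X) = (q⁻¹ • (1 : C.A X)) * (q • (1 : C.A X)) := by
      rw [smul_mul_smul_comm, inv_mul_cancel₀ hq, one_smul, one_mul]
    rw [← map_one H.cl, h1, map_mul, h, mul_zero]

/-- The smallest filtration is a Bloch-Beilinson filtration as soon as it is bounded. -/
theorem minF_isBB (hN : BB.IsAbelJacobiKernel H N)
    (h : ∀ (X : 𝒱.Obj) (j : ℕ) (z : C.A X), 1 ≤ j → Ch H D N (j + 1) X j z → z = 0) :
    BB.IsBBIn H D N (fun _ => True) (minF H D N) where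
  anti X _ j hj ν := by
    match ν with
    | 0 => exact fun z hz => hz.1
    | 1 =>
      change minF H D N X j 2 ≤ _
      rw [minF_two X hj]
      exact fun z hz => hN.deg X j z hz
    | (ν + 2) => exact Submodule.span_mono fun z hz => Ch.weaken hN (by omega) hz
  zero X _ j _ z := Iff.rfl
  one X _ j _ z := Iff.rfl
  two X _ j hj := minF_two X hj
  top X _ j _ := by
    match j with
    | 0 =>
      rw [eq_bot_iff]
      rintro z ⟨hz, hz'⟩
      exact hom_zero hz hz'
    | (j + 1) =>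
      rw [eq_bot_iff]
      change Submodule.span ℚ {z | Ch H D N (j + 2) X (j + 1) z} ≤ ⊥
      rw [Submodule.span_le]
      intro z hz
      exact h X (j + 1) z (by omega) hz
  stable X Y _ _ j i hj hi ν Γ hΓ z hz := by
    match ν with
    | 0 => exact act_gr hΓ hz
    | 1 => exact ⟨act_gr hΓ hz.1, act_hom hz.2⟩
    | (ν + 2) =>
      have h1 : Submodule.span ℚ {z | Ch H D N (ν + 2) X j z} ≤
          (Submodule.span ℚ {z | Ch H D N (ν + 2) Y i z}).comap (C.actL Γ) := by
        rw [Submodule.span_le]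
        intro z hz
        exact Submodule.subset_span (Ch.act hN hz hi Γ hΓ)
      exact h1 hz
  shift X Y _ _ j i hj hi ν Γ hΓ hk z hz := by
    match ν with
    | 0 =>
      refine ⟨act_gr hΓ hz, ?_⟩
      rw [cl_act H]
      apply hk
      have h1 := H.cl_mem (show z ∈ C.gr X j from hz)
      have e : (2 * (j : ℤ) - ((0 : ℕ) : ℤ)) = 2 * j := by push_cast; ring
      rw [e]
      exact h1
    | 1 =>
      change C.act Γ z ∈ minF H D N Y i 2
      rw [minF_two Y hi]
      exact hN.kills X Y j i Γ hΓ (by exact_mod_cast hk) z hz.1 hz.2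
    | (ν + 2) =>
      have h1 : Submodule.span ℚ {z | Ch H D N (ν + 2) X j z} ≤
          (Submodule.span ℚ {z | Ch H D N (ν + 3) Y i z}).comap (C.actL Γ) := by
        rw [Submodule.span_le]
        intro z hz
        exact Submodule.subset_span (Ch.step (ν + 2) X Y j i z Γ hz hi hΓ hk)
      exact h1 hz

omit hC hH in
lemma selfChain_mem_F {D : ℕ → Prop} {S : 𝒱.Obj → Prop}
    {F : ∀ X : 𝒱.Obj, ℕ → ℕ → Submodule ℚ (C.A X)}
    (hF : BB.IsBBIn H D N S F) (hR : S R) {ν J : ℕ} (hJ : D J) {z : C.A R}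
    (h : BS.SelfChain H N R J ν z) : z ∈ F R J ν := by
  induction h with
  | start z hz =>
    rw [hF.two R hR J hJ]
    exact hz
  | step ν z Γ h hΓ hk ih =>
    exact hF.shift R R hR hR J J hJ hJ ν Γ (by rwa [add_sub_cancel_right]) hk z ih

omit hC hH in
lemma selfChain_two_le {ν J : ℕ} {z : C.A R} (h : BS.SelfChain H N R J ν z) : 2 ≤ ν := by
  induction h with
  | start z hz => exact le_rfl
  | step ν z Γ h hΓ hk ih => omega

/-- `h(P)(-c)` is a direct summand of `h(R)` for `b ≤ c ≤ m + b`. -/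
def Good' (C : TheoryData.{u, v, 0} 𝒱 ℚ) (b : ℕ) (P : 𝒱.Obj) (m : ℕ) (R : 𝒱.Obj) : Prop :=
  ∀ c : ℕ, b ≤ c → c ≤ m + b → Emb C R P c

lemma Good'.left {b m : ℕ} (h : Good' C b (P.prod X) m R) : Good' C b P m R := by
  intro c h1 h2
  have h3 := (h c h1 h2).trans (emb_prod H P X (Nat.zero_le _))
  rwa [Nat.cast_zero, add_zero] at h3

lemma Good'.right {b m : ℕ} (h : Good' C b (P.prod X) m R) : Good' C b X m R := by
  intro c h1 h2
  obtain ⟨o, ho, hd⟩ := exists_hasDegree_one (C := C) P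
  have h3 := (h c h1 h2).trans (emb_snd P X o ho hd)
  rwa [add_zero] at h3

/-- Every chain can be realised by self-correspondences of a single variety, in a single
codimension. -/
theorem Ch.realise (hN : BB.IsAbelJacobiKernel H N) (hD : ∀ i j, i ≤ j → D j → D i) (b : ℕ)
    {ν j : ℕ} {z : C.A X} (h : Ch H D N ν X j z) : ∃ (P : 𝒱.Obj) (m : ℕ), D m ∧ j ≤ m ∧
      ∀ (R : 𝒱.Obj) (J : ℕ), m ≤ J → Good' C b P J R →
      ∀ e : C.A (X.prod R), C.Deg (X.dim + (J + b : ℕ) - j) e →
        BS.SelfChain H N R (J + b) ν (C.act e z) := by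
  induction h with
  | start X j z hj hz =>
    refine ⟨X, j, hj, le_rfl, fun R J _ _ e he => BS.SelfChain.start _ ?_⟩
    exact hN.stable X R j (J + b) e he z hz
  | step ν X Y j i z Γ h hi hΓ hk ih =>
    obtain ⟨P, m, hm, hjm, ih⟩ := ih
    refine ⟨P.prod X, max m i, ?_, le_max_right _ _, fun R J hJ hR e he => ?_⟩
    · rcases le_total m i with hmi | hmi
      · rwa [max_eq_right hmi]
      · rwa [max_eq_left hmi]
    have hmJ : m ≤ J := (le_max_left m i).trans hJ
    have hjJ : j ≤ J := hjm.trans hmJ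
    obtain ⟨e0, he0, r0, hr0, her⟩ := (hR.right (H := H)) (J + b - j) (by omega) (by omega)
    have ec : ((J + b - j : ℕ) : ℤ) = ((J + b : ℕ) : ℤ) - j := by omega
    rw [ec] at he0 hr0
    have hr0' : r0 ∈ C.gr (R.prod X) (R.dim + (-(((J + b : ℕ) : ℤ) - j))) :=
      gr_congr (by ring) hr0
    have hΓ' : Γ ∈ C.gr (X.prod Y) (X.dim + ((i : ℤ) - j)) := gr_congr (by ring) hΓ
    have he' : e ∈ C.gr (Y.prod R) (Y.dim + (((J + b : ℕ) : ℤ) - i)) := gr_congr (by ring) he
    have h1 : C.act e (C.act Γ z) = C.act (C.comp r0 (C.comp Γ e)) (C.act e0 z) := by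
      rw [C.act_comp, C.act_comp, ← C.act_comp e0 r0, her, act_dg]
    rw [h1]
    apply BS.SelfChain.step
    · exact ih R J hmJ (hR.left (H := H)) e0 (gr_congr (by ring) he0)
    · exact gr_congr (by ring) (comp_mem C hr0' (comp_mem C hΓ' he'))
    · intro a ha
      rw [actH_comp H, actH_comp H]
      have h2 : H.act (H.cl r0) a ∈ H.gr X (2 * j - ν) := by
        have h3 := actH_mem H hr0' ha
        have e1 : (2 * ((J + b : ℕ) : ℤ) - ν + 2 * (-(((J + b : ℕ) : ℤ) - j))) = 2 * j - ν := by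
          ring
        rwa [e1] at h3
      rw [hk _ h2, TheoryData.act_map_zero]

end weil

end Pool.Agent.Y148.RV
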