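import Pool.Agent.Y148.RV.Chain

/-!
# Bloch-Beilinson filtrations on single varieties and on rational varieties
-/

open CategoryTheory AlgebraicGeometry

universe u v w

namespace Pool.Agent.Y148.RV

open Pool.Agent.H914 Pool.Agent.H914.VarClass Pool.Agent.H914.VarClass.Obj Pool.Agent.W492.BB
  Pool.Agent.W550.Corr Pool.Agent.TH133 Pool.Agent.Y148.BB Pool.Agent.Y148

set_option linter.unusedSectionVars false
set_option linter.unusedVariables false

variable {k : Type u} [Field k] {𝒱 : VarClass k}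

section weil

variable {C : TheoryData.{u, v, 0} 𝒱 ℚ} {K : Type w} [Field K]
  {H : WeilTheoryData.{u, v, w} C K} {D : ℕ → Prop} {N : ∀ X : 𝒱.Obj, ℕ → Submodule ℚ (C.A X)}

lemma isBlochBeilinsonIn_iff {d : ℕ∞} {S : 𝒱.Obj → Prop} {F : BS.Filtrations C} :
    BS.IsBlochBeilinsonIn H d N S F ↔ BB.IsBBIn H (fun j : ℕ => (j : ℕ∞) ≤ d) N S F := by
  constructor
  · intro h
    exact ⟨fun X hX j hj ν z hz => h.anti X hX j hj ν z hz, fun X hX j hj z => h.zero X hX j hj z,
      fun X hX j hj z => h.one X hX j hj z,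
      fun X hX j hj => Submodule.ext fun z => h.two X hX j hj z,
      fun X hX j hj => (Submodule.eq_bot_iff _).2 fun z hz => h.top X hX j hj z hz,
      fun X Y hX hY j i hj hi ν Γ hΓ z hz => h.stable X Y hX hY j i hj hi ν Γ hΓ z hz,
      fun X Y hX hY j i hj hi ν Γ hΓ hk z hz => h.shift X Y hX hY j i hj hi ν Γ hΓ hk z hz⟩
  · intro h
    exact ⟨fun X hX j hj ν z hz => h.anti X hX j hj ν hz,
      fun X hX j hj z => h.zero X hX j hj z,
      fun X hX j hj z => h.one X hX j hj z,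
      fun X hX j hj z => by
        change z ∈ F X j 2 ↔ z ∈ N X j
        rw [h.two X hX j hj],
      fun X hX j hj z hz => by
        change z ∈ F X j (j + 1) at hz
        rw [h.top X hX j hj] at hz
        exact (Submodule.mem_bot _).1 hz,
      fun X Y hX hY j i hj hi ν Γ hΓ z hz => h.stable X Y hX hY j i hj hi ν Γ hΓ z hz,
      fun X Y hX hY j i hj hi ν Γ hΓ hk z hz => h.shift X Y hX hY j i hj hi ν Γ hΓ hk z hz⟩

lemma isBBIn_mono {S S' : 𝒱.Obj → Prop} {F : ∀ X : 𝒱.Obj, ℕ → ℕ → Submodule ℚ (C.A X)}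
    (hF : BB.IsBBIn H D N S F) (h : ∀ X, S' X → S X) : BB.IsBBIn H D N S' F where
  anti X hX := hF.anti X (h X hX)
  zero X hX := hF.zero X (h X hX)
  one X hX := hF.one X (h X hX)
  two X hX := hF.two X (h X hX)
  top X hX := hF.top X (h X hX)
  stable X Y hX hY := hF.stable X Y (h X hX) (h Y hY)
  shift X Y hX hY := hF.shift X Y (h X hX) (h Y hY)

lemma anti_le {S : 𝒱.Obj → Prop} {F : ∀ X : 𝒱.Obj, ℕ → ℕ → Submodule ℚ (C.A X)}
    (hF : BB.IsBBIn H D N S F) {X : 𝒱.Obj} (hX : S X) {j : ℕ} (hj : D j) {a b : ℕ} (hab : a ≤ b) :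
    F X j b ≤ F X j a := by
  induction b, hab using Nat.le_induction with
  | base => exact le_rfl
  | succ b hb ih => exact (hF.anti X hX j hj b).trans ih

variable [hC : IsChowProj C] [hH : IsWeilProj H] {X Y Z W P L M V R : 𝒱.Obj}

include hC hH

omit hH in
/-- To show that the image of a class on `R` lies in `U` one can use the decomposition of the
diagonal. -/
lemma dec_mem (hR : BS.HasDecomposition C R) {j : ℕ} (hj : 1 ≤ j) {z : C.A R}
    (hz : z ∈ C.gr R j) (f : C.A R →ₗ[ℚ] C.A Y) (U : Submodule ℚ (C.A Y))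
    (h : ∀ (E : 𝒱.Obj) (Φ : C.A (R.prod E)) (Ψ : C.A (E.prod R)), C.Deg (R.dim - 1) Φ →
      C.Deg (E.dim + 1) Ψ → f (C.act Ψ (C.act Φ z)) ∈ U) : f z ∈ U := by
  obtain ⟨o, ho, hdec⟩ := hR
  rw [BS.isDegreeOne_iff] at ho
  have e2 : C.act (C.ext o (1 : C.A R)) z = 0 :=
    act_ext_zero_of_lt (C.mul_mem ho.1 hz) (by omega)
  have e1 : z = C.act (dg C R - C.ext o 1) z := by
    rw [TheoryData.act_sub, act_dg, e2, sub_zero]
  have hle : Submodule.span ℚ {c | ∃ (E : 𝒱.Obj) (Φ : C.A (R.prod E)) (Ψ : C.A (E.prod R)),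
      C.Deg (R.dim - 1) Φ ∧ C.Deg (E.dim + 1) Ψ ∧ c = BS.circ C Φ Ψ} ≤
      U.comap (f.comp ((actB C (X := R) (Y := R)).flip z)) := by
    rw [Submodule.span_le]
    rintro c ⟨E, Φ, Ψ, hΦ, hΨ, rfl⟩
    change f (C.act (C.comp Φ Ψ) z) ∈ U
    rw [C.act_comp]
    exact h E Φ Ψ hΦ hΨ
  rw [e1]
  exact hle hdec

/-- The induced filtration on the varieties with a decomposition of the diagonal vanishes one step
earlier. -/
lemma extF_top {F : ∀ X : 𝒱.Obj, ℕ → ℕ → Submodule ℚ (C.A X)}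
    (hF : BB.IsBBIn H D N (fun _ => True) F) (hR : BS.HasDecomposition C R) {j : ℕ} (hj : 1 ≤ j)
    (hD : D (j - 1)) {z : C.A R} (hz : z ∈ extF C D (fun _ => True) F R j j) : z = 0 := by
  have h1 : LinearMap.id (R := ℚ) (M := C.A R) z ∈ (⊥ : Submodule ℚ (C.A R)) := by
    apply dec_mem hR hj hz.1
    intro E Φ Ψ hΦ hΨ
    have e : ((j - 1 : ℕ) : ℤ) = j - 1 := by omega
    have h5 : C.act Φ z ∈ F E (j - 1) j :=
      hz.2 E (j - 1) Φ trivial hD (gr_congr (by rw [e]; ring) hΦ)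
    have h6 := hF.top E trivial (j - 1) hD
    rw [Nat.sub_add_cancel hj] at h6
    rw [h6, Submodule.mem_bot] at h5
    rw [h5, TheoryData.act_map_zero]
    exact Submodule.zero_mem _
  exact h1

/-- The induced filtration on the varieties with a decomposition of the diagonal. -/
theorem extF_isBB (hN : BB.IsAbelJacobiKernel H N) (h0 : D 0)
    {F : ∀ X : 𝒱.Obj, ℕ → ℕ → Submodule ℚ (C.A X)} (hF : BB.IsBBIn H D N (fun _ => True) F) :
    BB.IsBBIn H (fun j => j = 0 ∨ D (j - 1)) N (BS.HasDecomposition C)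
      (extF C D (fun _ => True) F) where
  anti R _ j _ ν z hz :=
    ⟨hz.1, fun Y i Φ _ hi hΦ => hF.anti Y trivial i hi ν (hz.2 Y i Φ trivial hi hΦ)⟩
  zero R _ j _ z := by
    constructor
    · exact fun hz => hz.1
    · intro hz
      exact ⟨hz, fun Y i Φ _ hi hΦ => (hF.zero Y trivial i hi _).2 (act_gr hΦ hz)⟩
  one R hR j hj z := by
    constructor
    · intro hz
      refine ⟨hz.1, ?_⟩
      rcases Nat.eq_zero_or_pos j with rfl | hj'
      · have h1 := hz.2 R 0 (dg C R) trivial h0 (gr_congr (by ring) (dg_mem C R))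
        rw [act_dg] at h1
        exact ((hF.one R trivial 0 h0 z).1 h1).2
      · have hj1 : D (j - 1) := hj.resolve_left (by omega)
        have e : ((j - 1 : ℕ) : ℤ) = j - 1 := by omega
        let U : Submodule ℚ (C.A R) :=
          { carrier := {z | H.cl z = 0}
            add_mem' := fun {a b} ha hb => by
              change H.cl (a + b) = 0
              rw [map_add, ha, hb, add_zero]
            zero_mem' := map_zero _
            smul_mem' := fun q a ha => by
              change H.cl (q • a) = 0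
              rw [Algebra.smul_def, map_mul, ha, mul_zero] }
        have h1 : LinearMap.id (R := ℚ) (M := C.A R) z ∈ U := by
          apply dec_mem hR hj' hz.1
          intro E Φ Ψ hΦ hΨ
          have h5 : C.act Φ z ∈ F E (j - 1) 1 :=
            hz.2 E (j - 1) Φ trivial hj1 (gr_congr (by rw [e]; ring) hΦ)
          exact act_hom ((hF.one E trivial (j - 1) hj1 _).1 h5).2
        exact h1
    · rintro ⟨hz, hz'⟩
      exact ⟨hz, fun Y i Φ _ hi hΦ =>
        (hF.one Y trivial i hi _).2 ⟨act_gr hΦ hz, act_hom hz'⟩⟩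
  two R hR j hj := by
    ext z
    constructor
    · intro hz
      rcases Nat.eq_zero_or_pos j with rfl | hj'
      · have h1 := hz.2 R 0 (dg C R) trivial h0 (gr_congr (by ring) (dg_mem C R))
        rw [act_dg, hF.two R trivial 0 h0] at h1
        exact h1
      · have hj1 : D (j - 1) := hj.resolve_left (by omega)
        have e : ((j - 1 : ℕ) : ℤ) = j - 1 := by omega
        have h1 : LinearMap.id (R := ℚ) (M := C.A R) z ∈ N R j := by
          apply dec_mem hR hj' hz.1
          intro E Φ Ψ hΦ hΨ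
          have h5 : C.act Φ z ∈ F E (j - 1) 2 :=
            hz.2 E (j - 1) Φ trivial hj1 (gr_congr (by rw [e]; ring) hΦ)
          rw [hF.two E trivial (j - 1) hj1] at h5
          exact hN.stable E R (j - 1) j Ψ (gr_congr (by rw [e]; ring) hΨ) _ h5
        exact h1
    · intro hz
      refine ⟨(hN.deg R j z hz).1, fun Y i Φ _ hi hΦ => ?_⟩
      rw [hF.two Y trivial i hi]
      exact hN.stable R Y j i Φ hΦ z hz
  top R hR j hj := by
    rw [eq_bot_iff]
    intro z hz
    rw [Submodule.mem_bot]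
    rcases Nat.eq_zero_or_pos j with rfl | hj'
    · have h1 := hz.2 R 0 (dg C R) trivial h0 (gr_congr (by ring) (dg_mem C R))
      rw [act_dg, hF.top R trivial 0 h0] at h1
      exact (Submodule.mem_bot _).1 h1
    · have hj1 : D (j - 1) := hj.resolve_left (by omega)
      exact extF_top hF hR hj' hj1
        ⟨hz.1, fun Y i Φ _ hi hΦ => hF.anti Y trivial i hi j (hz.2 Y i Φ trivial hi hΦ)⟩
  stable R R' _ _ j i _ _ ν Γ hΓ z hz := by
    refine ⟨act_gr hΓ hz.1, fun Y m Φ _ hm hΦ => ?_⟩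
    rw [← C.act_comp]
    apply hz.2 Y m _ trivial hm
    have h4 : Γ ∈ C.gr (R.prod R') (R.dim + ((i : ℤ) - j)) := gr_congr (by ring) hΓ
    have h5 : Φ ∈ C.gr (R'.prod Y) (R'.dim + ((m : ℤ) - i)) := gr_congr (by ring) hΦ
    exact gr_congr (by ring) (comp_mem C h4 h5)
  shift R R' hR _ j i hj hi ν Γ hΓ hk z hz := by
    refine ⟨act_gr hΓ hz.1, fun Y m Φ _ hm hΦ => ?_⟩
    have h4 : Γ ∈ C.gr (R.prod R') (R.dim + ((i : ℤ) - j)) := gr_congr (by ring) hΓ
    have h5 : Φ ∈ C.gr (R'.prod Y) (R'.dim + ((m : ℤ) - i)) := gr_congr (by ring) hΦ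
    have h6 : C.comp Γ Φ ∈ C.gr (R.prod Y) (R.dim + ((m : ℤ) - j)) :=
      gr_congr (by ring) (comp_mem C h4 h5)
    rcases Nat.eq_zero_or_pos j with rfl | hj'
    · have h1 := hz.2 R 0 (dg C R) trivial h0 (gr_congr (by ring) (dg_mem C R))
      rw [act_dg] at h1
      rw [← C.act_comp]
      apply hF.shift R Y trivial trivial 0 m h0 hm ν _ _ _ z h1
      · exact gr_congr (by ring) h6
      · intro a ha
        rw [actH_comp H, hk a ha, TheoryData.act_map_zero]
    · have hj1 : D (j - 1) := hj.resolve_left (by omega)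
      have e : ((j - 1 : ℕ) : ℤ) = j - 1 := by omega
      have h1 : (C.actL Φ ∘ₗ C.actL Γ) z ∈ F Y m (ν + 1) := by
        apply dec_mem hR hj' hz.1
        intro E Φ' Ψ' hΦ' hΨ'
        change C.act Φ (C.act Γ (C.act Ψ' (C.act Φ' z))) ∈ _
        have h7 : C.act Φ' z ∈ F E (j - 1) ν :=
          hz.2 E (j - 1) Φ' trivial hj1 (gr_congr (by rw [e]; ring) hΦ')
        rw [← C.act_comp Γ Φ, ← C.act_comp Ψ']
        apply hF.shift E Y trivial trivial (j - 1) m hj1 hm ν _ _ _ _ h7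
        · exact gr_congr (by rw [e]; ring) (comp_mem C hΨ' h6)
        · intro a ha
          rw [actH_comp H, actH_comp H]
          have h8 : H.act (H.cl Ψ') a ∈ H.gr R (2 * j - ν) := by
            have h9 := actH_mem H hΨ' ha
            have e1 : (2 * ((j - 1 : ℕ) : ℤ) - ν + 2 * 1) = 2 * j - ν := by
              rw [e]; ring
            rwa [e1] at h9
          rw [hk _ h8, TheoryData.act_map_zero]
      exact h1

/-- There is a variety `R` such that `h(P)(-c)` is a direct summand of `h(R)` for `c ≤ m`. -/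
lemma exists_good' (h : ∀ X : 𝒱.Obj, ∃ R, Emb C R X 1) (P : 𝒱.Obj) (m : ℕ) :
    ∃ R, Good' C 0 P m R := by
  obtain ⟨T, e, he, r, hr, her⟩ := h P
  have hT : 1 ≤ T.dim := by
    by_contra hT
    have h0 : T.dim = 0 := by omega
    have h1 : e = 0 := hC.gr_top (P.prod T) (P.dim + 1) e he (by
      rw [dim_prod, h0]; push_cast; omega)
    apply dg_ne H P
    rw [← her, h1, zero_comp]
  have hL : ∀ m : ℕ, ∃ L : 𝒱.Obj, m ≤ L.dim := by
    intro m
    induction m with
    | zero => exact ⟨P, Nat.zero_le _⟩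
    | succ m ih =>
      obtain ⟨L, hL⟩ := ih
      refine ⟨L.prod T, ?_⟩
      rw [dim_prod]
      omega
  obtain ⟨L, hL⟩ := hL m
  exact ⟨P.prod L, fun c _ hc => emb_prod H P L (c := c) (by omega)⟩

omit [Field k] hC hH in
lemma le_add_one {d : ℕ∞} {j : ℕ} : (j : ℕ∞) ≤ d + 1 ↔ j = 0 ∨ ((j - 1 : ℕ) : ℕ∞) ≤ d := by
  cases j with
  | zero => simp
  | succ i =>
    rw [Nat.add_sub_cancel, Nat.cast_add, Nat.cast_one]
    constructor
    · intro h
      exact Or.inr ((ENat.add_le_add_iff_right (by simp)).1 h)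
    · intro h
      exact add_le_add (h.resolve_left (by omega)) le_rfl

/-- **Bloch-Beilinson filtrations: one variety at a time.** -/
theorem main (hN : BS.IsAbelJacobiKernel H N) (Rat : 𝒱.Obj → Prop)
    (h1 : ∀ R, Rat R → BS.HasDecomposition C R)
    (h2 : ∀ X : 𝒱.Obj, ∃ R, Rat R ∧ BS.TwistIsSummand C X R) (d : ℕ∞) :
    [∃ F : BS.Filtrations C, BS.IsBlochBeilinsonIn H d N (fun _ => True) F,
      ∀ X : 𝒱.Obj, ∃ F : BS.Filtrations C, BS.IsBlochBeilinsonIn H d N (fun Y => Y = X) F,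
      ∀ R, Rat R → ∃ F : BS.Filtrations C,
        BS.IsBlochBeilinsonIn H (d + 1) N (fun Y => Y = R) F ∧
          ∀ j : ℕ, 1 ≤ j → j ≤ d + 1 → ∀ z : C.A R, F.Has j j z → z = 0,
      ∀ R, Rat R → ∀ (J ν : ℕ) (w : C.A R) (Λ : C.A (R.prod R)), J ≤ d + 1 →
        BS.SelfChain H N R J ν w → C.Deg (R.dim + ν - J) Λ → C.act Λ w = 0].TFAE := by
  have hN' := BS.isAbelJacobiKernel hN
  have hD : ∀ i j : ℕ, i ≤ j → (j : ℕ∞) ≤ d → (i : ℕ∞) ≤ d :=
    fun i j hij hj => le_trans (by exact_mod_cast hij) hj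
  have h2' : ∀ X : 𝒱.Obj, ∃ R, Rat R ∧ Emb C R X 1 := by
    intro X
    obtain ⟨R, hR, f, g, hf, hg, hfg⟩ := h2 X
    exact ⟨R, hR, f, hf, g, hg, hfg⟩
  tfae_have 1 → 2 := by
    rintro ⟨F, hF⟩ X
    rw [isBlochBeilinsonIn_iff] at hF
    exact ⟨F, isBlochBeilinsonIn_iff.2 (isBBIn_mono hF fun _ _ => trivial)⟩
  tfae_have 2 → 1 := by
    intro h
    refine ⟨minF H (fun j : ℕ => (j : ℕ∞) ≤ d) N, isBlochBeilinsonIn_iff.2 (minF_isBB hN' ?_)⟩
    intro X j z hj hz
    have hjd := hz.mem_D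
    obtain ⟨P, m, hm, hjm, hP⟩ := hz.realise hN' hD 0
    obtain ⟨R, hgood⟩ := exists_good' (H := H) (fun X => (h2' X).imp fun R hR => hR.2)
      (P.prod X) m
    have hgX := hgood.right (H := H)
    obtain ⟨F, hF⟩ := h R
    rw [isBlochBeilinsonIn_iff] at hF
    obtain ⟨e, he, r, hr, her⟩ := hgX (m - j) (by omega) (by omega)
    obtain ⟨f, hf, g, hg, hfg⟩ := hgX 0 le_rfl (by omega)
    have ec : ((m - j : ℕ) : ℤ) = m - j := by omega
    rw [ec] at he hr
    have h3 := hP R m le_rfl (hgood.left (H := H)) e (gr_congr (by push_cast; ring) he)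
    rw [Nat.add_zero] at h3
    have h4 := selfChain_mem_F hF rfl hm h3
    have h5 : C.act (C.comp r f) (C.act e z) ∈ F R j (j + 1) := by
      apply hF.stable R R rfl rfl m j hm hjd (j + 1) _ _ _ h4
      have hr' : r ∈ C.gr (R.prod X) (R.dim + (-((m : ℤ) - j))) := gr_congr (by ring) hr
      exact gr_congr (by push_cast; ring) (comp_mem C hr' hf)
    rw [hF.top R rfl j hjd, Submodule.mem_bot, C.act_comp, ← C.act_comp e r, her, act_dg] at h5
    rw [← act_dg C z, ← hfg, C.act_comp, h5, TheoryData.act_map_zero]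
  tfae_have 1 → 3 := by
    rintro ⟨F, hF⟩ R hR
    rw [isBlochBeilinsonIn_iff] at hF
    have hF' := extF_isBB hN' (by simp) hF
    refine ⟨extF C (fun j : ℕ => (j : ℕ∞) ≤ d) (fun _ => True) F, ?_, ?_⟩
    · rw [isBlochBeilinsonIn_iff]
      have e1 : (fun j : ℕ => (j : ℕ∞) ≤ d + 1) =
          fun j : ℕ => j = 0 ∨ ((j - 1 : ℕ) : ℕ∞) ≤ d := by
        funext j
        exact propext le_add_one
      rw [e1]
      exact isBBIn_mono hF' fun Y hY => hY ▸ h1 R hR
    · intro j hj hjd z hz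
      exact extF_top hF (h1 R hR) hj ((le_add_one.1 hjd).resolve_left (by omega)) hz
  tfae_have 3 → 4 := by
    intro h R hR J ν w Λ hJ hw hΛ
    obtain ⟨F, hF, hF'⟩ := h R hR
    rw [isBlochBeilinsonIn_iff] at hF
    have hν := selfChain_two_le hw
    have hw1 := selfChain_mem_F hF rfl hJ hw
    by_cases hνd : (ν : ℕ∞) ≤ d + 1
    · exact hF' ν (by omega) hνd _ (hF.stable R R rfl rfl J ν hJ hνd ν Λ hΛ w hw1)
    · have hJν : J + 1 ≤ ν := by
        by_contra hlt
        apply hνd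
        exact le_trans (by exact_mod_cast (by omega : ν ≤ J)) hJ
      have h3 := anti_le hF rfl hJ hJν hw1
      rw [hF.top R rfl J hJ, Submodule.mem_bot] at h3
      rw [h3, TheoryData.act_map_zero]
  tfae_have 4 → 1 := by
    intro h
    refine ⟨minF H (fun j : ℕ => (j : ℕ∞) ≤ d) N, isBlochBeilinsonIn_iff.2 (minF_isBB hN' ?_)⟩
    intro X j z hj hz
    obtain ⟨P, m, hm, hjm, hP⟩ := hz.realise hN' hD 1
    obtain ⟨R, hR, hgood⟩ := exists_good H h2' (P.prod X) m
    have hgood' : Good' C 1 (P.prod X) m R := hgood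
    have hgX := hgood'.right (H := H)
    obtain ⟨e, he, r, hr, her⟩ := hgX (m + 1 - j) (by omega) (by omega)
    obtain ⟨f, hf, g, hg, hfg⟩ := hgX 1 le_rfl (by omega)
    have ec : ((m + 1 - j : ℕ) : ℤ) = m + 1 - j := by omega
    rw [ec] at he hr
    have h3 := hP R m le_rfl (hgood'.left (H := H)) e (gr_congr (by push_cast; ring) he)
    have h4 := h R hR (m + 1) (j + 1) _ (C.comp r f)
      (by rw [Nat.cast_add, Nat.cast_one]; exact add_le_add hm le_rfl) h3 (by
      have hr' : r ∈ C.gr (R.prod X) (R.dim + (-((m : ℤ) + 1 - j))) := gr_congr (by ring) hr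
      exact gr_congr (by push_cast; ring) (comp_mem C hr' hf))
    rw [C.act_comp, ← C.act_comp e r, her, act_dg] at h4
    rw [← act_dg C z, ← hfg, C.act_comp, h4, TheoryData.act_map_zero]
  tfae_finish

end weil

end Pool.Agent.Y148.RV
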